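import Mathlib

namespace Pool.Agent.Results.MP_cab928_co.Full

open Finset

/-- The binomial coefficient `x (x-1) ⋯ (x-k+1) / k!` with real top entry. -/
noncomputable def B (x : ℝ) (k : ℕ) : ℝ := (∏ j ∈ range k, (x - j)) / (k.factorial : ℝ)

variable {V : Type} [Fintype V] [DecidableEq V]

/-- The number of edges containing `I`. -/
def deg (H : Finset (Finset V)) (I : Finset V) : ℕ := (H.filter (fun e => I ⊆ e)).card

/-- The `t`-sets all of whose `q`-subsets are edges. -/
def cliques (H : Finset (Finset V)) (q t : ℕ) : Finset (Finset V) :=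
  univ.filter (fun T => T.card = t ∧ ∀ e ∈ T.powersetCard q, e ∈ H)

/-- `x(T)`: the largest `x(I)` over the `i`-subsets `I` of `T`. -/
noncomputable def xT (x : Finset V → ℝ) (i : ℕ) (T : Finset V) : ℝ :=
  sSup (x '' {I | I ⊆ T ∧ I.card = i})

lemma B_succ (x : ℝ) (k : ℕ) : ((k : ℝ) + 1) * B x (k + 1) = (x - k) * B x k := by
  unfold B
  rw [prod_range_succ, Nat.factorial_succ]
  push_cast
  field_simp

lemma B_succ' (x : ℝ) (k : ℕ) : ((k : ℝ) + 1) * B x (k + 1) = x * B (x - 1) k := by
  unfold B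
  rw [prod_range_succ', Nat.factorial_succ]
  have : ∏ j ∈ range k, (x - ((j + 1 : ℕ) : ℝ)) = ∏ j ∈ range k, (x - 1 - j) :=
    prod_congr rfl fun j _ => by push_cast; ring
  rw [this]
  push_cast
  field_simp
  ring

lemma B_nat (n k : ℕ) : B n k = n.choose k := by
  induction k with
  | zero => simp [B]
  | succ k ih =>
    have h := B_succ n k
    rw [ih] at h
    have h2 : ((n.choose (k + 1) : ℕ) : ℝ) * (k + 1) = n.choose k * ((n : ℝ) - k) := by
      by_cases hk : k ≤ n
      · have := congrArg (Nat.cast : ℕ → ℝ) (Nat.choose_succ_right_eq n k)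
        push_cast [Nat.cast_sub hk] at this
        exact this
      · rw [Nat.choose_eq_zero_of_lt (by omega), Nat.choose_eq_zero_of_lt (by omega)]
        simp
    apply mul_left_cancel₀ (show (k : ℝ) + 1 ≠ 0 by positivity)
    rw [h]
    linarith

lemma prod_mono {a b : ℝ} {k : ℕ} (hk : (k : ℝ) ≤ a + 1) (hab : a ≤ b) :
    ∏ j ∈ range k, (a - j) ≤ ∏ j ∈ range k, (b - j) := by
  apply prod_le_prod
  · intro j hj
    have : (j : ℝ) + 1 ≤ k := by exact_mod_cast mem_range.1 hj
    linarith
  · intro j _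
    linarith

lemma B_mono {a b : ℝ} {k : ℕ} (hk : (k : ℝ) ≤ a + 1) (hab : a ≤ b) : B a k ≤ B b k :=
  div_le_div_of_nonneg_right (prod_mono hk hab) (by positivity)

lemma B_lt {a b : ℝ} {k : ℕ} (hk : (k : ℝ) ≤ a) (hab : a < b) : B a (k + 1) < B b (k + 1) := by
  apply div_lt_div_of_pos_right _ (by positivity)
  rw [prod_range_succ, prod_range_succ]
  have h1 := prod_mono (a := a) (b := b) (k := k) (by linarith) hab.le
  have h2 : 0 < ∏ j ∈ range k, (b - j) := prod_pos fun j hj => by
    have : (j : ℝ) < k := by exact_mod_cast mem_range.1 hj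
    linarith
  calc _ ≤ (∏ j ∈ range k, (b - j)) * (a - k) := mul_le_mul_of_nonneg_right h1 (by linarith)
    _ < _ := mul_lt_mul_of_pos_left (by linarith) h2

lemma B_add (y : ℝ) (a b : ℕ) : B y (a + b) * ((a + b).choose a : ℕ) = B y a * B (y - a) b := by
  unfold B
  rw [prod_range_add]
  have : ∏ j ∈ range b, (y - ((a + j : ℕ) : ℝ)) = ∏ j ∈ range b, (y - a - j) :=
    prod_congr rfl fun j _ => by push_cast; ring
  rw [this]
  have h := congrArg (Nat.cast : ℕ → ℝ) (Nat.add_choose_mul_factorial_mul_factorial b a)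
  rw [add_comm b a] at h
  push_cast at h
  rw [← h]
  have : (0 : ℝ) < ((a + b).choose a : ℕ) := by exact_mod_cast Nat.choose_pos (by omega)
  field_simp

def K (I : Finset V) (G : Finset (Finset V)) (r : ℕ) : Finset (Finset V) :=
  univ.filter (fun T => I ⊆ T ∧ T.card = I.card + r + 1 ∧ ∀ v ∈ T, v ∉ I → T.erase v ∈ G)

lemma dc (I : Finset V) (F : Finset (Finset V)) (s : ℕ)
    (h : ∀ e ∈ F, I ⊆ e ∧ e.card = I.card + s) :
    ∑ v ∈ Iᶜ, ((F.filter (fun e => v ∈ e)).card : ℝ) = s * F.card := by
  have : ∑ v ∈ Iᶜ, (F.filter (fun e => v ∈ e)).card = s * F.card := by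
    simp only [card_filter]
    rw [sum_comm, mul_comm, ← smul_eq_mul, ← sum_const]
    refine sum_congr rfl fun e he => ?_
    rw [← card_filter]
    have : filter (fun v => v ∈ e) Iᶜ = e \ I := by
      ext v
      simp [and_comm]
    rw [this, card_sdiff_of_subset (h e he).1, (h e he).2]
    omega
  exact_mod_cast this

def P (W : Type) [Fintype W] [DecidableEq W] (r : ℕ) : Prop :=
  ∀ (I : Finset W) (G : Finset (Finset W)) (x : ℝ), (∀ e ∈ G, I ⊆ e ∧ e.card = I.card + r) →
    (r : ℝ) ≤ x → (G.card : ℝ) < B x r → ((r : ℝ) + 1) * (K I G r).card ≤ (x - r) * G.card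

lemma step (r : ℕ) (ih : P V r) (I : Finset V) (G : Finset (Finset V)) (x : ℝ)
    (hG : ∀ e ∈ G, I ⊆ e ∧ e.card = I.card + (r + 1)) (hx : (r : ℝ) + 1 ≤ x)
    (hc : (G.card : ℝ) ≤ B x (r + 1)) :
    ((r : ℝ) + 2) * (K I G (r + 1)).card ≤ (x - (r + 1)) * G.card := by
  have hv : ∀ v ∈ Iᶜ, ((r : ℝ) + 1) * ((K I G (r + 1)).filter (fun e => v ∈ e)).card ≤
      (x - (r + 1)) * (G.filter (fun e => v ∈ e)).card := by
    intro v hv
    have hvI : v ∉ I := mem_compl.1 hv
    by_cases hlt : ((G.filter (fun e => v ∈ e)).card : ℝ) < B (x - 1) r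
    · have h1 := ih (insert v I) (G.filter (fun e => v ∈ e)) (x - 1) (fun e he => by
        rw [mem_filter] at he
        refine ⟨insert_subset he.2 (hG e he.1).1, ?_⟩
        rw [card_insert_of_notMem hvI, (hG e he.1).2]
        omega) (by linarith) hlt
      have h2 : (K I G (r + 1)).filter (fun e => v ∈ e) ⊆
          K (insert v I) (G.filter (fun e => v ∈ e)) r := by
        intro T hT
        simp only [K, mem_filter, mem_univ, true_and] at hT ⊢
        obtain ⟨⟨a, b, c⟩, d⟩ := hT
        refine ⟨insert_subset d a, by rw [card_insert_of_notMem hvI]; omega, fun w hw hw' => ?_⟩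
        rw [mem_insert, not_or] at hw'
        exact ⟨c w hw hw'.2, mem_erase.2 ⟨fun h => hw'.1 h.symm, d⟩⟩
      have h3 : (((K I G (r + 1)).filter (fun e => v ∈ e)).card : ℝ) ≤
          (K (insert v I) (G.filter (fun e => v ∈ e)) r).card := by
        exact_mod_cast card_le_card h2
      calc _ ≤ ((r : ℝ) + 1) * (K (insert v I) (G.filter (fun e => v ∈ e)) r).card :=
            mul_le_mul_of_nonneg_left h3 (by positivity)
        _ ≤ _ := by linarith
    · have h2 : ((K I G (r + 1)).filter (fun e => v ∈ e)).card ≤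
          (G.filter (fun e => ¬ v ∈ e)).card := by
        apply card_le_card_of_injOn (fun T => T.erase v)
        · intro T hT
          simp only [K, coe_filter, mem_filter, mem_univ, true_and, Set.mem_ofPred_eq] at hT ⊢
          exact ⟨hT.1.2.2 v hT.2 hvI, notMem_erase v T⟩
        · intro T hT T' hT' he
          simp only [coe_filter, Set.mem_ofPred_eq] at hT hT'
          rw [← insert_erase hT.2, ← insert_erase hT'.2]
          exact congrArg _ he
      have h3 := card_filter_add_card_filter_not (s := G) (fun e => v ∈ e)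
      have h4 : (((K I G (r + 1)).filter (fun e => v ∈ e)).card : ℝ) +
          (G.filter (fun e => v ∈ e)).card ≤ G.card := by
        exact_mod_cast (by omega)
      have h5 := B_succ' x r
      have h6 : x * B (x - 1) r ≤ x * (G.filter (fun e => v ∈ e)).card :=
        mul_le_mul_of_nonneg_left (not_lt.1 hlt) (by linarith [Nat.cast_nonneg (α := ℝ) r])
      have h7 : ((r : ℝ) + 1) * ((((K I G (r + 1)).filter (fun e => v ∈ e)).card : ℝ) +
          (G.filter (fun e => v ∈ e)).card) ≤ ((r : ℝ) + 1) * B x (r + 1) :=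
        mul_le_mul_of_nonneg_left (h4.trans hc) (by positivity)
      linarith
  have hs := sum_le_sum hv
  rw [← mul_sum, ← mul_sum, dc I G (r + 1) hG, dc I (K I G (r + 1)) (r + 2) (fun e he => by
    simp only [K, mem_filter, mem_univ, true_and] at he
    exact ⟨he.1, by omega⟩)] at hs
  push_cast at hs
  apply le_of_mul_le_mul_left _ (show (0 : ℝ) < r + 1 by positivity)
  linarith

lemma allP (r : ℕ) : P V r := by
  induction r with
  | zero =>
    intro I G x _ _ hc
    have : G = ∅ := by
      rw [← card_eq_zero]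
      simp only [B, range_zero, prod_empty, Nat.factorial_zero, Nat.cast_one, div_one] at hc
      have : G.card < 1 := by exact_mod_cast hc
      omega
    subst this
    have : K I (∅ : Finset (Finset V)) 0 = ∅ := by
      apply eq_empty_of_forall_notMem
      intro T hT
      simp only [K, mem_filter, mem_univ, true_and] at hT
      obtain ⟨v, h1, h2⟩ := exists_mem_notMem_of_card_lt_card (show I.card < T.card by omega)
      exact notMem_empty _ (hT.2.2 v h1 h2)
    simp [this]
  | succ r ih =>
    intro I G x hG hx hc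
    have := step r ih I G x hG (by exact_mod_cast hx) hc.le
    push_cast
    linarith

def C (H : Finset (Finset V)) (I : Finset V) (r s : ℕ) : Finset (Finset V) :=
  univ.filter (fun T => (I ⊆ T ∧ T.card = I.card + s) ∧
    ∀ e ⊆ T, I ⊆ e → e.card = I.card + r → e ∈ H)

lemma chain (H : Finset (Finset V)) (I : Finset V) (r : ℕ) (y : ℝ)
    (hd : (deg H I : ℝ) = B y (r + 1)) (k : ℕ) (hk : ((r + 1 + k : ℕ) : ℝ) ≤ y) :
    ((C H I (r + 1) (r + 1 + k)).card : ℝ) ≤ B y (r + 1 + k) := by
  induction k with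
  | zero =>
    rw [add_zero, ← hd]
    unfold deg
    have : C H I (r + 1) (r + 1) ⊆ H.filter (fun e => I ⊆ e) := by
      intro T hT
      simp only [C, mem_filter, mem_univ, true_and] at hT ⊢
      exact ⟨hT.2 T Subset.rfl hT.1.1 hT.1.2, hT.1.1⟩
    exact_mod_cast card_le_card this
  | succ k ih =>
    push_cast at hk ih
    have ih' := ih (by linarith)
    have e : r + 1 + k = r + k + 1 := by omega
    rw [e] at ih'
    have h1 := step (r + k) (allP _) I (C H I (r + 1) (r + k + 1)) y (fun e he => by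
      simp only [C, mem_filter, mem_univ, true_and] at he
      exact he.1) (by push_cast; linarith) ih'
    have h2 : C H I (r + 1) (r + 1 + (k + 1)) ⊆ K I (C H I (r + 1) (r + k + 1)) (r + k + 1) := by
      intro T hT
      simp only [C, K, mem_filter, mem_univ, true_and] at hT ⊢
      obtain ⟨⟨a, b⟩, c⟩ := hT
      refine ⟨a, by omega, fun v hv hv' => ⟨⟨subset_erase.2 ⟨a, hv'⟩, ?_⟩,
        fun e he => c e (he.trans (erase_subset _ _))⟩⟩
      rw [card_erase_of_mem hv]
      omega
    have h3 : ((C H I (r + 1) (r + 1 + (k + 1))).card : ℝ) ≤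
        (K I (C H I (r + 1) (r + k + 1)) (r + k + 1)).card := by exact_mod_cast card_le_card h2
    have h4 := B_succ y (r + k + 1)
    rw [show r + 1 + (k + 1) = r + k + 1 + 1 by omega] at h3 ⊢
    push_cast at h1 h4
    have h5 : (y - (r + k + 1)) * ((C H I (r + 1) (r + k + 1)).card : ℝ) ≤
        (y - (r + k + 1)) * B y (r + k + 1) := mul_le_mul_of_nonneg_left ih' (by linarith)
    apply le_of_mul_le_mul_left _ (show (0 : ℝ) < r + k + 2 by positivity)
    have h6 := mul_le_mul_of_nonneg_left h3 (show (0 : ℝ) ≤ r + k + 2 by positivity)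
    linarith

lemma deg_ge (H : Finset (Finset V)) {q t : ℕ} {I T : Finset V} (hT : T ∈ cliques H q t)
    (hI : I ⊆ T) (hq : I.card ≤ q) : (t - I.card).choose (q - I.card) ≤ deg H I := by
  simp only [cliques, mem_filter, mem_univ, true_and, mem_powersetCard] at hT
  rw [← hT.1, ← card_sdiff_of_subset hI, ← card_powersetCard]
  apply card_le_card_of_injOn (fun S => S ∪ I)
  · intro S hS
    simp only [coe_filter, mem_coe, mem_powersetCard, Set.mem_ofPred_eq] at hS ⊢
    have hd : Disjoint S I := disjoint_of_subset_left hS.1 sdiff_disjoint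
    refine ⟨hT.2 _ ⟨union_subset (hS.1.trans sdiff_subset) hI, ?_⟩, subset_union_right⟩
    rw [card_union_of_disjoint hd]
    omega
  · intro S hS S' hS' he
    simp only [mem_coe, mem_powersetCard] at hS hS'
    have hd : Disjoint S I := disjoint_of_subset_left hS.1 sdiff_disjoint
    have hd' : Disjoint S' I := disjoint_of_subset_left hS'.1 sdiff_disjoint
    rw [← union_sdiff_cancel_right hd, ← union_sdiff_cancel_right hd']
    exact congrArg (· \ I) he

theorem result (V : Type) [Fintype V] [DecidableEq V] (t q i : ℕ) (_hi : 1 ≤ i) (hiq : i < q)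
    (hqt : q ≤ t) (H : Finset (Finset V)) (hH : ∀ e ∈ H, e.card = q) (x : Finset V → ℝ)
    (hx : ∀ I : Finset V, I.card = i →
      (q : ℝ) - 1 ≤ x I ∧ (deg H I : ℝ) = B (x I - i) (q - i)) :
    ∑ T ∈ cliques H q t, 1 / B (xT x i T - q) (t - q) ≤ (H.card : ℝ) / (t.choose q : ℕ) := by
  obtain ⟨r, rfl⟩ : ∃ r, q = i + (r + 1) := ⟨q - i - 1, by omega⟩
  obtain ⟨k, rfl⟩ : ∃ k, t = i + (r + 1) + k := ⟨t - (i + (r + 1)), by omega⟩
  rw [show i + (r + 1) - i = r + 1 by omega] at hx
  rw [show i + (r + 1) + k - (i + (r + 1)) = k by omega]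
  set Q := cliques H (i + (r + 1)) (i + (r + 1) + k) with hQ
  have big : ∀ T ∈ Q, ∀ I ⊆ T, I.card = i → ((r + 1 + k : ℕ) : ℝ) ≤ x I - i := by
    intro T hT I hI hc
    by_contra hlt
    have h1 := B_lt (k := r) (a := x I - i) (by have := (hx I hc).1; push_cast at this; linarith)
      (not_le.1 hlt)
    have h2 := deg_ge H hT hI (by omega)
    rw [hc, show i + (r + 1) + k - i = r + 1 + k by omega,
      show i + (r + 1) - i = r + 1 by omega] at h2
    rw [B_nat, ← (hx I hc).2] at h1
    have : deg H I < (r + 1 + k).choose (r + 1) := by exact_mod_cast h1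
    omega
  have pos : ∀ T ∈ Q, ∀ I ⊆ T, I.card = i → 1 ≤ B (x I - ((i + (r + 1) : ℕ) : ℝ)) k := by
    intro T hT I hI hc
    have h1 := big T hT I hI hc
    have h2 := B_mono (a := (k : ℝ)) (b := x I - ((i + (r + 1) : ℕ) : ℝ)) (k := k) (by linarith)
      (by push_cast at h1 ⊢; linarith)
    rw [B_nat] at h2
    simpa using h2
  let w : Finset V → ℝ := fun I => 1 / B (x I - ((i + (r + 1) : ℕ) : ℝ)) k
  let S := (univ : Finset V).powersetCard i
  have hA : ∀ T ∈ Q, ((i + (r + 1) + k).choose i : ℕ) *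
      (1 / B (xT x i T - ((i + (r + 1) : ℕ) : ℝ)) k) ≤ ∑ I ∈ S, if I ⊆ T then w I else 0 := by
    intro T hT
    have hc : T.card = i + (r + 1) + k := by
      simp only [hQ, cliques, mem_filter] at hT
      exact hT.2.1
    have e : S.filter (fun I => I ⊆ T) = T.powersetCard i := by
      ext I
      simp [S, mem_powersetCard, and_comm]
    rw [← sum_filter, e, ← hc, ← card_powersetCard, ← nsmul_eq_mul]
    apply card_nsmul_le_sum
    intro I hI
    rw [mem_powersetCard] at hI
    have h1 := big T hT I hI.1 hI.2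
    have h2 : x I ≤ xT x i T :=
      le_csSup (Set.Finite.bddAbove (Set.toFinite _)) ⟨I, hI, rfl⟩
    apply one_div_le_one_div_of_le (by linarith [pos T hT I hI.1 hI.2])
    exact B_mono (by push_cast at h1 ⊢; linarith) (by linarith)
  have hB : ∀ I ∈ S, ((r + 1 + k).choose (r + 1) : ℕ) * ∑ T ∈ Q, (if I ⊆ T then w I else 0) ≤
      (deg H I : ℝ) := by
    intro I hI
    have hc : I.card = i := (mem_powersetCard.1 hI).2
    rw [← sum_filter, sum_const, nsmul_eq_mul]
    rcases (Q.filter (fun T => I ⊆ T)).eq_empty_or_nonempty with h0 | ⟨T, hT⟩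
    · simp [h0]
    · rw [mem_filter] at hT
      have h1 := chain H I r (x I - i) (hx I hc).2 k (big T hT.1 I hT.2 hc)
      have h2 : Q.filter (fun T => I ⊆ T) ⊆ C H I (r + 1) (r + 1 + k) := by
        intro U hU
        simp only [hQ, cliques, C, mem_filter, mem_univ, true_and, mem_powersetCard] at hU ⊢
        exact ⟨⟨hU.2, by omega⟩, fun e he _ h => hU.1.2 e ⟨he, by omega⟩⟩
      have h3 : ((Q.filter (fun T => I ⊆ T)).card : ℝ) ≤ B (x I - i) (r + 1 + k) :=
        le_trans (by exact_mod_cast card_le_card h2) h1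
      have h4 := B_add (x I - i) (r + 1) k
      have h5 := pos T hT.1 I hT.2 hc
      rw [← (hx I hc).2, show x I - i - ((r + 1 : ℕ) : ℝ) = x I - ((i + (r + 1) : ℕ) : ℝ) by
        push_cast; ring] at h4
      simp only [w]
      rw [mul_one_div, ← mul_div_assoc, div_le_iff₀ (by linarith), ← h4, mul_comm]
      exact mul_le_mul_of_nonneg_right h3 (by positivity)
  have hC : ∑ I ∈ S, deg H I = H.card * (i + (r + 1)).choose i := by
    simp only [deg, card_filter]
    rw [sum_comm, ← smul_eq_mul, ← sum_const]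
    refine sum_congr rfl fun e he => ?_
    rw [← card_filter, ← hH e he, ← card_powersetCard]
    congr 1
    ext I
    simp [S, mem_powersetCard, and_comm]
  have hA' := sum_le_sum hA
  have hB' := sum_le_sum hB
  rw [← mul_sum, sum_comm] at hA'
  rw [← mul_sum, ← Nat.cast_sum, hC] at hB'
  have hD := Nat.choose_mul (n := i + (r + 1) + k) (k := i + (r + 1)) (s := i) (by omega)
  rw [show i + (r + 1) + k - i = r + 1 + k by omega, show i + (r + 1) - i = r + 1 by omega] at hD
  have hD' := congrArg (Nat.cast : ℕ → ℝ) hD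
  rw [Nat.cast_mul, Nat.cast_mul] at hD'
  rw [Nat.cast_mul] at hB'
  have p1 : (0 : ℝ) < ((i + (r + 1) + k).choose (i + (r + 1)) : ℕ) := by
    exact_mod_cast Nat.choose_pos (by omega)
  have p2 : (0 : ℝ) < ((i + (r + 1)).choose i : ℕ) := by exact_mod_cast Nat.choose_pos (by omega)
  have p3 : (0 : ℝ) ≤ ((r + 1 + k).choose (r + 1) : ℕ) := by positivity
  rw [le_div_iff₀ p1]
  apply le_of_mul_le_mul_right _ p2
  have := mul_le_mul_of_nonneg_left hA' p3
  rw [mul_assoc, hD']
  linarith

end Pool.Agent.Results.MP_cab928_co.Full
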